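import Mathlib

open MvPolynomial

namespace Pool.Agent.Lib.MP_3f84da_ag

/-- `g` has trailing term `c t^m` (with `c = 0` allowed). -/
def Tr {A : Type} [CommRing A] (g : Polynomial A) (m : ℕ) (c : A) : Prop :=
  ∃ r : Polynomial A, g = Polynomial.X ^ m * (Polynomial.C c + Polynomial.X * r)

section Tr

variable {A : Type} [CommRing A]

lemma Tr.mul {g g' : Polynomial A} {m m' : ℕ} {c c' : A} (h : Tr g m c) (h' : Tr g' m' c') :
    Tr (g * g') (m + m') (c * c') := by
  obtain ⟨r, rfl⟩ := h
  obtain ⟨r', rfl⟩ := h'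
  refine ⟨Polynomial.C c * r' + Polynomial.C c' * r + Polynomial.X * r * r', ?_⟩
  rw [Polynomial.C_mul]
  ring

lemma Tr.one : Tr (1 : Polynomial A) 0 1 := ⟨0, by simp⟩

lemma Tr.const (a : A) : Tr (Polynomial.C a) 0 a := ⟨0, by simp⟩

lemma Tr.pow {g : Polynomial A} {m : ℕ} {c : A} (h : Tr g m c) (k : ℕ) :
    Tr (g ^ k) (k * m) (c ^ k) := by
  induction k with
  | zero => simpa using Tr.one
  | succ k ih =>
    have := ih.mul h
    rw [pow_succ, pow_succ, Nat.succ_mul]
    exact this

lemma Tr.prod {ι : Type} (s : Finset ι) (g : ι → Polynomial A) (m : ι → ℕ) (c : ι → A)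
    (h : ∀ i ∈ s, Tr (g i) (m i) (c i)) :
    Tr (∏ i ∈ s, g i) (∑ i ∈ s, m i) (∏ i ∈ s, c i) := by
  classical
  induction s using Finset.induction_on with
  | empty => simpa using Tr.one
  | insert a s ha ih =>
    rw [Finset.prod_insert ha, Finset.sum_insert ha, Finset.prod_insert ha]
    exact (h a (Finset.mem_insert_self a s)).mul
      (ih fun i hi => h i (Finset.mem_insert_of_mem hi))

lemma Tr.coeff {g : Polynomial A} {m : ℕ} {c : A} (h : Tr g m c) {d : ℕ} (hd : d ≤ m) :
    g.coeff d = if m = d then c else 0 := by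
  obtain ⟨r, rfl⟩ := h
  rw [Polynomial.coeff_X_pow_mul']
  by_cases hmd : m = d
  · subst hmd
    simp
  · rw [if_neg (by omega), if_neg hmd]

lemma Tr.ne_zero {g : Polynomial A} {m : ℕ} {c : A} (h : Tr g m c) (hc : c ≠ 0) : g ≠ 0 := by
  intro h0
  have h1 := h.coeff (le_refl m)
  rw [if_pos rfl, h0] at h1
  exact hc (by simpa using h1.symm)

lemma Tr.unique {g : Polynomial A} {m m' : ℕ} {c c' : A} (h : Tr g m c) (h' : Tr g m' c')
    (hc : c ≠ 0) (hc' : c' ≠ 0) : m = m' ∧ c = c' := by
  have hm : m = m' := by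
    rcases lt_trichotomy m m' with hlt | heq | hgt
    · exfalso
      have h1 := h.coeff (le_refl m)
      have h2 := h'.coeff hlt.le
      rw [if_pos rfl] at h1
      rw [if_neg (by omega), h1] at h2
      exact hc h2
    · exact heq
    · exfalso
      have h1 := h'.coeff (le_refl m')
      have h2 := h.coeff hgt.le
      rw [if_pos rfl] at h1
      rw [if_neg (by omega), h1] at h2
      exact hc' h2
  subst hm
  refine ⟨rfl, ?_⟩
  have h1 := h.coeff (le_refl m)
  have h2 := h'.coeff (le_refl m)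
  rw [if_pos rfl] at h1 h2
  rw [← h1, h2]

end Tr

section family

variable {S : Type} {A : Type} [CommRing A] [Algebra ℂ A]

/-- trailing term of the image of a monomial -/
lemma Tr.monomial {y : S → Polynomial A} {d : S → ℕ} {χ : S → A}
    (hy : ∀ s, Tr (y s) (d s) (χ s)) (u : S →₀ ℕ) (a : ℂ) :
    Tr (aeval y (MvPolynomial.monomial u a)) (u.sum fun s k => k * d s)
      (aeval χ (MvPolynomial.monomial u a)) := by
  rw [aeval_monomial, aeval_monomial]
  have h1 : Tr (algebraMap ℂ (Polynomial A) a) 0 (algebraMap ℂ A a) := by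
    have h2 : algebraMap ℂ (Polynomial A) a = Polynomial.C (algebraMap ℂ A a) := rfl
    rw [h2]
    exact Tr.const _
  have h2 : Tr (u.prod fun s k => y s ^ k) (u.sum fun s k => k * d s)
      (u.prod fun s k => χ s ^ k) :=
    Tr.prod _ _ _ _ fun s _ => (hy s).pow _
  have h3 := h1.mul h2
  rwa [zero_add] at h3

/-- If the trailing coefficients are algebraically independent, so is the family. -/
lemma injective_of_trailing {y : S → Polynomial A} {d : S → ℕ} {χ : S → A}
    (hy : ∀ s, Tr (y s) (d s) (χ s))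
    (hχ : Function.Injective (aeval χ : MvPolynomial S ℂ →ₐ[ℂ] A)) :
    Function.Injective (aeval y : MvPolynomial S ℂ →ₐ[ℂ] Polynomial A) := by
  classical
  rw [injective_iff_map_eq_zero]
  intro g hg
  by_contra hg0
  have hne : g.support.Nonempty := by
    rw [Finset.nonempty_iff_ne_empty]
    exact fun h => hg0 (MvPolynomial.support_eq_empty.mp h)
  set w : (S →₀ ℕ) → ℕ := fun u => u.sum fun s k => k * d s with hw
  obtain ⟨u0, hu0, hmin⟩ := Finset.exists_min_image g.support w hne
  set g0 : MvPolynomial S ℂ := ∑ u ∈ g.support.filter (fun u => w u = w u0),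
    MvPolynomial.monomial u (g.coeff u) with hg0def
  have h1 : (aeval y g).coeff (w u0) = aeval χ g0 := by
    conv_lhs => rw [← MvPolynomial.support_sum_monomial_coeff g]
    rw [map_sum, Polynomial.finsetSum_coeff, hg0def, map_sum, Finset.sum_filter]
    refine Finset.sum_congr rfl fun u hu => ?_
    exact (Tr.monomial hy u (g.coeff u)).coeff (hmin u hu)
  rw [hg, Polynomial.coeff_zero] at h1
  have h2 : g0 = 0 := hχ (by rw [← h1, map_zero])
  have h3 : g0.coeff u0 = g.coeff u0 := by
    rw [hg0def, MvPolynomial.coeff_sum]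
    simp only [MvPolynomial.coeff_monomial]
    rw [Finset.sum_ite_eq' (g.support.filter (fun u => w u = w u0)) u0 (fun u => g.coeff u)]
    have hmem : u0 ∈ g.support.filter (fun u => w u = w u0) := Finset.mem_filter.mpr ⟨hu0, rfl⟩
    rw [if_pos hmem]
  rw [h2, MvPolynomial.coeff_zero] at h3
  exact (MvPolynomial.mem_support_iff.mp hu0) h3.symm

end family

/-- Initial-form data for a polynomial parametrisation `φ`. -/
structure InitData {S V : Type} (φ : MvPolynomial S ℂ →ₐ[ℂ] MvPolynomial V ℂ) where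
  τ : MvPolynomial V ℂ →ₐ[ℂ] Polynomial (MvPolynomial V ℂ)
  d : S → ℕ
  χ : S → MvPolynomial V ℂ
  hφ : ∀ s, Tr (τ (φ (X s))) (d s) (χ s)
  h0 : ∀ s, χ s = 0 → φ (X s) = 0
  β : V → S
  e : V → (V →₀ ℕ)
  hβ : ∀ v, χ (β v) = monomial (e v) 1
  hinj : Function.Injective (aeval (fun v => χ (β v)) : MvPolynomial V ℂ →ₐ[ℂ] MvPolynomial V ℂ)

namespace InitData

variable {S V : Type} {φ : MvPolynomial S ℂ →ₐ[ℂ] MvPolynomial V ℂ} (D : InitData φ)

lemma aeval_eq (φ : MvPolynomial S ℂ →ₐ[ℂ] MvPolynomial V ℂ)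
    (τ : MvPolynomial V ℂ →ₐ[ℂ] Polynomial (MvPolynomial V ℂ)) (f : MvPolynomial S ℂ) :
    τ (φ f) = aeval (fun s => τ (φ (X s))) f := by
  have h : (τ.comp φ) = aeval (fun s => τ (φ (X s))) := by
    apply MvPolynomial.algHom_ext
    intro s
    simp
  exact DFunLike.congr_fun h f

include D in
lemma tr_monomial (u : S →₀ ℕ) (a : ℂ) :
    Tr (D.τ (φ (monomial u a))) (u.sum fun s k => k * D.d s) (aeval D.χ (monomial u a)) := by
  rw [aeval_eq]
  exact Tr.monomial D.hφ u a

/-- The base elements stay algebraically independent under `φ`. -/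
lemma injective_base :
    Function.Injective (aeval (fun v => φ (X (D.β v))) : MvPolynomial V ℂ →ₐ[ℂ] MvPolynomial V ℂ) := by
  have h1 : Function.Injective
      (aeval (fun v => D.τ (φ (X (D.β v)))) : MvPolynomial V ℂ →ₐ[ℂ] _) :=
    injective_of_trailing (fun v => D.hφ (D.β v)) D.hinj
  have h2 : (aeval (fun v => D.τ (φ (X (D.β v)))) : MvPolynomial V ℂ →ₐ[ℂ] _) =
      D.τ.comp (aeval (fun v => φ (X (D.β v)))) := by
    apply MvPolynomial.algHom_ext
    intro v
    simp
  rw [h2] at h1
  intro p q hpq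
  apply h1
  simp only [AlgHom.comp_apply, hpq]

/-- `ker (aeval χ) ≤ ker φ` as soon as `ker φ ≤ ker (aeval χ)`: two primes of equal dimension. -/
lemma ker_le_of_le [Finite V] (hle : RingHom.ker φ ≤ RingHom.ker (aeval D.χ : MvPolynomial S ℂ →ₐ[ℂ] _)) :
    RingHom.ker (aeval D.χ : MvPolynomial S ℂ →ₐ[ℂ] MvPolynomial V ℂ) ≤ RingHom.ker φ := by
  intro f hf
  rw [RingHom.mem_ker] at hf ⊢
  by_contra hne
  have hai : AlgebraicIndependent ℂ (fun v => φ (X (D.β v))) := D.injective_base
  have htb : IsTranscendenceBasis ℂ (fun v => φ (X (D.β v))) := by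
    apply hai.isTranscendenceBasis_of_trdeg_le_of_finite
    rw [MvPolynomial.trdeg_of_isDomain]
    simp
  have halg := htb.isAlgebraic
  obtain ⟨q, hq0, hq⟩ := (halg.isAlgebraic (φ f)).exists_nonzero_coeff_and_aeval_eq_zero
    (mem_nonZeroDivisors_of_ne_zero hne)
  -- lift the coefficients
  have hlift : ∀ j, ∃ h : MvPolynomial V ℂ, aeval (fun v => φ (X (D.β v))) h =
      (q.coeff j : MvPolynomial V ℂ) := by
    intro j
    have key : ∀ x ∈ Algebra.adjoin ℂ (Set.range fun v => φ (X (D.β v))),
        ∃ h : MvPolynomial V ℂ, aeval (fun v => φ (X (D.β v))) h = x := by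
      intro x hx
      rw [Algebra.adjoin_range_eq_range_aeval] at hx
      exact hx
    exact key _ (q.coeff j).2
  choose h hh using hlift
  set g : ℕ → MvPolynomial S ℂ := fun j => rename D.β (h j) with hg
  have hφg : ∀ j, φ (g j) = (q.coeff j : MvPolynomial V ℂ) := by
    intro j
    rw [← hh j, hg]
    have h2 : (φ.comp (rename D.β)) = aeval (fun v => φ (X (D.β v))) := by
      apply MvPolynomial.algHom_ext
      intro v
      simp
    exact DFunLike.congr_fun h2 (h j)
  have hχg : ∀ j, aeval D.χ (g j) = aeval (fun v => D.χ (D.β v)) (h j) := by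
    intro j
    rw [hg, aeval_rename]
    rfl
  have hrel : φ (∑ j ∈ Finset.range (q.natDegree + 1), g j * f ^ j) = 0 := by
    rw [Polynomial.aeval_eq_sum_range] at hq
    rw [map_sum, ← hq]
    refine Finset.sum_congr rfl fun j _ => ?_
    rw [map_mul, map_pow, hφg]
    rfl
  have hrel2 : aeval D.χ (∑ j ∈ Finset.range (q.natDegree + 1), g j * f ^ j) = 0 := by
    exact hle hrel
  rw [map_sum, Finset.sum_range_succ'] at hrel2
  have hzero : ∑ k ∈ Finset.range q.natDegree, (aeval D.χ) (g (k + 1) * f ^ (k + 1)) = 0 := by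
    refine Finset.sum_eq_zero fun k _ => ?_
    rw [map_mul, map_pow, hf]
    simp
  rw [hzero, zero_add, pow_zero, mul_one, hχg] at hrel2
  have h3 : h 0 = 0 := D.hinj (by rw [hrel2, map_zero])
  apply hq0
  apply Subtype.ext
  rw [← hh 0, h3]
  simp

include D in
/-- The trailing coefficient of the image of a monomial vanishes only if the image does. -/
lemma monomial_eq_zero (w : S →₀ ℕ) (c : ℂ) (hw : aeval D.χ (monomial w c) = 0) :
    φ (monomial w c) = 0 := by
  have hφ' : φ = aeval (fun s => φ (X s)) := aeval_unique φ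
  rw [hφ', aeval_monomial]
  rw [aeval_monomial] at hw
  rcases mul_eq_zero.mp hw with h3 | h3
  · rw [h3, zero_mul]
  · rw [Finsupp.prod, Finset.prod_eq_zero_iff] at h3
    obtain ⟨s, hs, hs0⟩ := h3
    have hs1 : D.χ s = 0 := eq_zero_of_pow_eq_zero hs0
    have hs2 := D.h0 s hs1
    rw [Finsupp.prod, Finset.prod_eq_zero hs, mul_zero]
    rw [hs2, zero_pow (Finsupp.mem_support_iff.mp hs)]

/-- A monomial relation between images passes to the trailing coefficients. -/
lemma relation {u v : S →₀ ℕ} {a b : ℂ}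
    (h : φ (monomial u a) = φ (monomial v b)) :
    aeval D.χ (monomial u a) = aeval D.χ (monomial v b) := by
  have h1 := D.tr_monomial u a
  have h2 := D.tr_monomial v b
  by_cases hu : aeval D.χ (monomial u a) = 0
  · have h3 := D.monomial_eq_zero u a hu
    rw [← h, h3, map_zero] at h2
    rw [hu]
    by_contra hne
    exact h2.ne_zero (fun h => hne h.symm) rfl
  · by_cases hv : aeval D.χ (monomial v b) = 0
    · have h3 := D.monomial_eq_zero v b hv
      rw [h, h3, map_zero] at h1
      exact absurd rfl (h1.ne_zero hu)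
    · rw [h] at h1
      exact (h1.unique h2 hu hv).2

section toric

variable {M : Type} [AddCommMonoid M]
  (θ : MvPolynomial S ℂ →ₐ[ℂ] AddMonoidAlgebra ℂ M) (m : S → M) (c : S → ℂ)
  (hθ : ∀ s, θ (X s) = AddMonoidAlgebra.single (m s) (c s))

include hθ in
lemma theta_monomial (u : S →₀ ℕ) (a : ℂ) :
    θ (monomial u a) = AddMonoidAlgebra.single (u.sum fun s k => k • m s)
      (a * u.prod fun s k => c s ^ k) := by
  have hθ' : θ = aeval (fun s => θ (X s)) := aeval_unique θ
  rw [hθ', aeval_monomial]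
  have h1 : (u.prod fun s k => θ (X s) ^ k) =
      AddMonoidAlgebra.single (u.sum fun s k => k • m s) (u.prod fun s k => c s ^ k) := by
    classical
    rw [Finsupp.prod, Finsupp.prod, Finsupp.sum]
    induction u.support using Finset.induction_on with
    | empty => simp [AddMonoidAlgebra.one_def]
    | insert x s hx ih =>
      rw [Finset.prod_insert hx, Finset.prod_insert hx, Finset.sum_insert hx, ih, hθ,
        AddMonoidAlgebra.single_pow, AddMonoidAlgebra.single_mul_single]
  rw [h1, ← Algebra.smul_def, AddMonoidAlgebra.smul_single, smul_eq_mul]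

include D hθ in
lemma ker_le (hker : RingHom.ker φ = RingHom.ker θ) :
    RingHom.ker φ ≤ RingHom.ker (aeval D.χ : MvPolynomial S ℂ →ₐ[ℂ] MvPolynomial V ℂ) := by
  classical
  set Mu : (S →₀ ℕ) → M := fun u => u.sum fun s k => k • m s with hMu
  set Cu : (S →₀ ℕ) → ℂ := fun u => u.prod fun s k => c s ^ k with hCu
  have hθm : ∀ (u : S →₀ ℕ) (a : ℂ), θ (monomial u a) = AddMonoidAlgebra.single (Mu u) (a * Cu u) :=
    fun u a => theta_monomial θ m c hθ u a
  have hχm : ∀ (u : S →₀ ℕ) (a : ℂ), aeval D.χ (monomial u a) =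
      C a * aeval D.χ (monomial u (1 : ℂ)) := by
    intro u a
    rw [aeval_monomial, aeval_monomial, map_one, one_mul]
    rfl
  set Ψ : M → MvPolynomial V ℂ := fun μ => if h : ∃ u, Mu u = μ ∧ Cu u ≠ 0 then
    C (Cu h.choose)⁻¹ * aeval D.χ (monomial h.choose (1 : ℂ)) else 0 with hΨ
  have hclaim : ∀ u, aeval D.χ (monomial u (1 : ℂ)) = C (Cu u) * Ψ (Mu u) := by
    intro u
    by_cases hu : Cu u = 0
    · have h1 : monomial u (1 : ℂ) ∈ RingHom.ker θ := by
        rw [RingHom.mem_ker, hθm, hu, mul_zero, AddMonoidAlgebra.single_zero]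
      rw [← hker, RingHom.mem_ker] at h1
      have h2 : φ (monomial u (1 : ℂ)) = φ (monomial 0 (0 : ℂ)) := by
        rw [h1, map_zero, map_zero]
      have h3 := D.relation h2
      rw [map_zero, map_zero] at h3
      rw [hu, C_0, zero_mul]
      exact h3
    · have hex : ∃ v, Mu v = Mu u ∧ Cu v ≠ 0 := ⟨u, rfl, hu⟩
      have hval : Ψ (Mu u) = C (Cu hex.choose)⁻¹ * aeval D.χ (monomial hex.choose (1 : ℂ)) := by
        simp only [hΨ]
        rw [dif_pos hex]
      obtain ⟨hv1, hv2⟩ := hex.choose_spec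
      set v := hex.choose with hv
      have h1 : monomial u (Cu v) - monomial v (Cu u) ∈ RingHom.ker θ := by
        rw [RingHom.mem_ker, map_sub, hθm, hθm, hv1, mul_comm, sub_self]
      rw [← hker, RingHom.mem_ker, map_sub, sub_eq_zero] at h1
      have h2 := D.relation h1
      rw [hχm u, hχm v] at h2
      rw [hval, ← mul_assoc, mul_comm (C (Cu u)), mul_assoc, ← h2, ← mul_assoc, ← C_mul,
        inv_mul_cancel₀ hv2, C_1, one_mul]
  set Λ : AddMonoidAlgebra ℂ M →+ MvPolynomial V ℂ :=
    AddMonoidAlgebra.liftNC ((C : ℂ →+* MvPolynomial V ℂ) : ℂ →+ MvPolynomial V ℂ)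
      (fun μ => Ψ (Multiplicative.toAdd μ)) with hΛ
  have hΛs : ∀ (μ : M) (a : ℂ), Λ (AddMonoidAlgebra.single μ a) = C a * Ψ μ := by
    intro μ a
    rw [hΛ, AddMonoidAlgebra.liftNC_single]
    rfl
  intro f hf
  rw [hker, RingHom.mem_ker] at hf
  rw [RingHom.mem_ker]
  have h1 : Λ (θ f) = aeval D.χ f := by
    conv_lhs => rw [← MvPolynomial.support_sum_monomial_coeff f]
    conv_rhs => rw [← MvPolynomial.support_sum_monomial_coeff f]
    rw [map_sum, map_sum, map_sum]
    refine Finset.sum_congr rfl fun u _ => ?_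
    rw [hθm, hΛs, hχm, hclaim, C_mul, mul_assoc]
  rw [← h1, hf, map_zero]

lemma aeval_monomials (e : V → (V →₀ ℕ)) (p : V →₀ ℕ) (a : ℂ) :
    ∃ n : V →₀ ℕ, aeval (fun v => (monomial (e v) (1 : ℂ) : MvPolynomial V ℂ)) (monomial p a) =
      monomial n a := by
  classical
  rw [aeval_monomial]
  have h1 : ∃ n : V →₀ ℕ, (p.prod fun v k => (monomial (e v) (1 : ℂ) : MvPolynomial V ℂ) ^ k) =
      monomial n 1 := by
    rw [Finsupp.prod]
    induction p.support using Finset.induction_on with
    | empty => exact ⟨0, by simp⟩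
    | insert x s hx ih =>
      obtain ⟨n, hn⟩ := ih
      refine ⟨p x • e x + n, ?_⟩
      rw [Finset.prod_insert hx, hn, monomial_pow, monomial_mul, one_pow, one_mul]
  obtain ⟨n, hn⟩ := h1
  refine ⟨n, ?_⟩
  rw [hn]
  have : algebraMap ℂ (MvPolynomial V ℂ) a = C a := rfl
  rw [this, C_mul_monomial, mul_one]

include D hθ in
lemma chi_monomial [Finite V] (hker : RingHom.ker φ = RingHom.ker θ) (s : S) (hs : D.χ s ≠ 0) :
    ∃ (n : V →₀ ℕ) (b : ℂ), D.χ s = monomial n b := by
  classical
  set ι : Option V → S := fun o => o.elim s D.β with hι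
  -- the base elements together with `X s` are dependent
  have hnot : ¬ AlgebraicIndependent ℂ (fun o : Option V => φ (X (ι o))) := by
    intro hai
    have h1 := hai.cardinalMk_le_trdeg
    rw [MvPolynomial.trdeg_of_isDomain, Cardinal.mk_option, Cardinal.lift_id] at h1
    have h2 : Cardinal.mk V < Cardinal.aleph0 := Cardinal.mk_lt_aleph0
    obtain ⟨N, hN⟩ := Cardinal.lt_aleph0.mp h2
    rw [hN] at h1
    have h3 : N + 1 ≤ N := by exact_mod_cast h1
    omega
  have hex : ∃ f : MvPolynomial (Option V) ℂ, aeval (fun o : Option V => φ (X (ι o))) f = 0 ∧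
      f ≠ 0 := by
    by_contra hcon
    push Not at hcon
    apply hnot
    rw [AlgebraicIndependent, injective_iff_map_eq_zero]
    exact hcon
  obtain ⟨f, hf, hf0⟩ := hex
  set φ' : MvPolynomial (Option V) ℂ →ₐ[ℂ] MvPolynomial V ℂ := φ.comp (rename ι) with hφ'
  set θ' : MvPolynomial (Option V) ℂ →ₐ[ℂ] AddMonoidAlgebra ℂ M := θ.comp (rename ι) with hθ'
  have hker' : ∀ g, φ' g = 0 ↔ θ' g = 0 := by
    intro g
    change φ (rename ι g) = 0 ↔ θ (rename ι g) = 0
    rw [← RingHom.mem_ker, ← RingHom.mem_ker, hker]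
  have hφ'eq : φ' = aeval (fun o : Option V => φ (X (ι o))) := by
    apply MvPolynomial.algHom_ext
    intro o
    simp [hφ']
  have hθf : θ' f = 0 := by
    rw [← hker', hφ'eq]
    exact hf
  have hθX : ∀ o, θ' (X o) = AddMonoidAlgebra.single (m (ι o)) (c (ι o)) := by
    intro o
    rw [hθ', AlgHom.comp_apply, rename_X, hθ]
  set Mu : (Option V →₀ ℕ) → M := fun u => u.sum fun o k => k • m (ι o) with hMu
  set Cu : (Option V →₀ ℕ) → ℂ := fun u => u.prod fun o k => c (ι o) ^ k with hCu
  have hθm : ∀ (u : Option V →₀ ℕ) (a : ℂ),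
      θ' (monomial u a) = AddMonoidAlgebra.single (Mu u) (a * Cu u) :=
    fun u a => theta_monomial θ' (fun o => m (ι o)) (fun o => c (ι o)) hθX u a
  have hχι : ∀ o, D.χ (ι o) ≠ 0 := by
    intro o
    cases o with
    | none => exact hs
    | some v =>
      change D.χ (D.β v) ≠ 0
      rw [D.hβ]
      intro h
      rw [MvPolynomial.monomial_eq_zero] at h
      exact one_ne_zero h
  have hcι : ∀ o, c (ι o) ≠ 0 := by
    intro o h
    have h1 : θ (X (ι o)) = 0 := by rw [hθ, h, AddMonoidAlgebra.single_zero]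
    have h2 : (X (ι o) : MvPolynomial S ℂ) ∈ RingHom.ker θ := h1
    rw [← hker, RingHom.mem_ker] at h2
    have h3 := D.hφ (ι o)
    rw [h2, map_zero] at h3
    exact h3.ne_zero (hχι o) rfl
  have hCu0 : ∀ u, Cu u ≠ 0 := by
    intro u
    simp only [hCu, Finsupp.prod]
    exact Finset.prod_ne_zero_iff.mpr fun o _ => pow_ne_zero _ (hcι o)
  -- two exponents with the same degree
  have hcoll : ∃ u ∈ f.support, ∃ v ∈ f.support, Mu u = Mu v ∧ u ≠ v := by
    by_contra hcon
    push Not at hcon
    have hne : f.support.Nonempty := by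
      rw [Finset.nonempty_iff_ne_empty]
      exact fun h => hf0 (MvPolynomial.support_eq_empty.mp h)
    obtain ⟨u0, hu0⟩ := hne
    have h1 : θ' f = ∑ u ∈ f.support, AddMonoidAlgebra.single (Mu u) (f.coeff u * Cu u) := by
      conv_lhs => rw [← MvPolynomial.support_sum_monomial_coeff f]
      rw [map_sum]
      exact Finset.sum_congr rfl fun u _ => hθm u _
    -- apply the additive functional picking the coefficient at `Mu u0`
    set Λ : AddMonoidAlgebra ℂ M →+ ℂ := AddMonoidAlgebra.liftNC (AddMonoidHom.id ℂ)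
      (fun μ => if Multiplicative.toAdd μ = Mu u0 then (1 : ℂ) else 0) with hΛ
    have h2 : Λ (θ' f) = f.coeff u0 * Cu u0 := by
      rw [h1, map_sum]
      have h3 : ∀ u ∈ f.support, Λ (AddMonoidAlgebra.single (Mu u) (f.coeff u * Cu u)) =
          if u = u0 then f.coeff u0 * Cu u0 else 0 := by
        intro u hu
        rw [hΛ, AddMonoidAlgebra.liftNC_single]
        by_cases h : u = u0
        · subst h
          simp
        · have h4 : Mu u ≠ Mu u0 := fun h5 => h (hcon u hu u0 hu0 h5)
          simp [h, h4]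
      rw [Finset.sum_congr rfl h3, Finset.sum_ite_eq' f.support u0, if_pos hu0]
    rw [hθf, map_zero] at h2
    exact (mul_ne_zero (MvPolynomial.mem_support_iff.mp hu0) (hCu0 u0)) h2.symm
  obtain ⟨u, hu, v, hv, hMuv, huv⟩ := hcoll
  -- the resulting binomial relation, with the larger power of `X s` on the left
  have hrel : ∀ u v : Option V →₀ ℕ, Mu u = Mu v →
      φ' (monomial u (Cu v)) = φ' (monomial v (Cu u)) := by
    intro u v h
    have h1 : φ' (monomial u (Cu v) - monomial v (Cu u)) = 0 := by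
      rw [hker', map_sub, hθm, hθm, h, mul_comm, sub_self]
    rwa [map_sub, sub_eq_zero] at h1
  set y := φ (X s) with hy
  have hy0 : y ≠ 0 := by
    intro h
    have h3 := D.hφ s
    rw [← hy, h, map_zero] at h3
    exact h3.ne_zero hs rfl
  have hφ'm : ∀ (u : Option V →₀ ℕ) (a : ℂ), φ' (monomial u a) =
      y ^ (u none) * aeval (fun v => φ (X (D.β v))) (monomial u.some a) := by
    intro u a
    rw [hφ'eq, aeval_monomial, aeval_monomial, Finsupp.prod_option_index]
    · simp only [hι, Option.elim_none, Option.elim_some, hy]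
      ring
    · intro o; simp
    · intro o a b; rw [pow_add]
  have main : ∀ u v : Option V →₀ ℕ, Mu u = Mu v → u ≠ v → v none ≤ u none →
      ∃ (n : V →₀ ℕ) (b : ℂ), D.χ s = monomial n b := by
    intro u v hMuv huv hle
    have h1 := hrel u v hMuv
    rw [hφ'm, hφ'm] at h1
    obtain ⟨j, hj⟩ := Nat.exists_eq_add_of_le hle
    rw [hj, pow_add, mul_assoc] at h1
    have h2 := mul_left_cancel₀ (pow_ne_zero _ hy0) h1
    rcases Nat.eq_zero_or_pos j with hj0 | hj0
    · exfalso
      rw [hj0, pow_zero, one_mul] at h2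
      have h3 := D.injective_base h2
      have h4 : u.some = v.some := by
        rw [monomial_eq_monomial_iff] at h3
        rcases h3 with ⟨h, _⟩ | ⟨h, _⟩
        · exact h
        · exact absurd h (hCu0 v)
      apply huv
      ext o
      cases o with
      | none => rw [hj, hj0, add_zero]
      | some w =>
        have := DFunLike.congr_fun h4 w
        simpa using this
    · -- pass to trailing coefficients
      have htr : ∀ (p : V →₀ ℕ) (a : ℂ), ∃ k, Tr (D.τ (aeval (fun v => φ (X (D.β v)))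
          (monomial p a))) k (aeval (fun v => D.χ (D.β v)) (monomial p a)) := by
        intro p a
        have h3 : D.τ (aeval (fun v => φ (X (D.β v))) (monomial p a)) =
            aeval (fun v => D.τ (φ (X (D.β v)))) (monomial p a) := by
          have h4 : D.τ.comp (aeval (fun v => φ (X (D.β v)))) =
              aeval (fun v => D.τ (φ (X (D.β v)))) := by
            apply MvPolynomial.algHom_ext
            intro v
            simp
          exact DFunLike.congr_fun h4 _
        rw [h3]
        exact ⟨_, Tr.monomial (fun v => D.hφ (D.β v)) p a⟩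
      obtain ⟨k1, hk1⟩ := htr u.some (Cu v)
      obtain ⟨k2, hk2⟩ := htr v.some (Cu u)
      have h3 : Tr (D.τ (y ^ j * aeval (fun v => φ (X (D.β v))) (monomial u.some (Cu v))))
          (j * D.d s + k1) (D.χ s ^ j * aeval (fun v => D.χ (D.β v)) (monomial u.some (Cu v))) := by
        rw [map_mul, map_pow]
        exact ((D.hφ s).pow j).mul hk1
      rw [h2] at h3
      have hχeq : (fun v => D.χ (D.β v)) = fun v => (monomial (D.e v) (1 : ℂ)) := by
        funext v
        exact D.hβ v
      rw [hχeq] at h3 hk2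
      obtain ⟨n1, hn1⟩ := aeval_monomials D.e u.some (Cu v)
      obtain ⟨n2, hn2⟩ := aeval_monomials D.e v.some (Cu u)
      rw [hn1] at h3
      rw [hn2] at hk2
      have h4 : (monomial n1 (Cu v) : MvPolynomial V ℂ) ≠ 0 := by
        rw [Ne, MvPolynomial.monomial_eq_zero]
        exact hCu0 v
      have h5 : (monomial n2 (Cu u) : MvPolynomial V ℂ) ≠ 0 := by
        rw [Ne, MvPolynomial.monomial_eq_zero]
        exact hCu0 u
      have h6 := (h3.unique hk2 (mul_ne_zero (pow_ne_zero _ hs) h4) h5).2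
      have h7 : D.χ s ∣ monomial n2 (Cu u) := by
        rw [← h6]
        exact Dvd.dvd.mul_right (dvd_pow_self _ (by omega)) _
      rw [dvd_monomial_iff_exists (hCu0 u)] at h7
      obtain ⟨n, b, _, _, h8⟩ := h7
      exact ⟨n, b, h8⟩
  rcases le_total (v none) (u none) with h | h
  · exact main u v hMuv huv h
  · exact main v u hMuv.symm huv.symm h

end toric

end InitData

end Pool.Agent.Lib.MP_3f84da_ag
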